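import Mathlib
import Pool.Agent.T2H53.CG.O
import Pool.Agent.T2H53.GW.Exist

set_option autoImplicit false

/-! # Wagstaff's asymptotic in random models of the primes: the exceptional prime moduli

Let `T : ℕ → ℕ` be nondecreasing with `T(k) = (log k)^{o(1)}` (for instance `T = 0`: Cramer's model). Random primes:
every integer `n` without a prime factor `p ≤ T(n)` is chosen with probability `∏_{p ≤ T(n)} (1 - 1/p)⁻¹ / log n` (at
most `1`), the other integers are not chosen, and the choices are independent. Let `P(d)` be the largest, over the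
residue classes modulo `d` prime to `d`, of the least random prime in the class. Almost surely Wagstaff's formula
`P(d) ~ φ(d) (log d)²` holds for almost all prime moduli `d`, with at most `x^{1 - ε/2}` exceptional `d ≤ x` for every
`ε`, but it fails for many prime moduli: for every `1 < c < 2` the number of the primes `d ≤ x` with
`P(d) ≥ c φ(d) (log d)²` is `x^{2 - c + o(1)}`. -/

namespace Pool.Agent.Results.MP_458f0b_nt.ExceptionalModuli

open Finset Filter Topology MeasureTheory ProbabilityTheory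

open scoped Classical in
/-- the probability that `n` is a random prime -/
noncomputable def prob (T : ℕ → ℕ) (n : ℕ) : ℝ :=
  if ∀ p : ℕ, p.Prime → p ≤ T n → ¬ p ∣ n then
    min 1 ((∏ p ∈ (Icc 1 (T n)).filter Nat.Prime, (1 - (p : ℝ)⁻¹)⁻¹) / Real.log n) else 0

/-- the events `S n` (`n` is a random prime) are independent with the probabilities `prob T n` -/
def Model (T : ℕ → ℕ) {Ω : Type*} [MeasurableSpace Ω] (μ : Measure Ω) (S : ℕ → Set Ω) : Prop :=
  IsProbabilityMeasure μ ∧ (∀ n, MeasurableSet (S n)) ∧ iIndepSet S μ ∧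
    ∀ n, μ (S n) = ENNReal.ofReal (prob T n)

/-- the set of the random primes -/
def randomPrimes {Ω : Type*} (S : ℕ → Set Ω) (ω : Ω) : Set ℕ := {n | ω ∈ S n}

/-- the largest, over the classes modulo `d` prime to `d`, of the least element of `R` in the class -/
noncomputable def largestLeast (R : Set ℕ) (d : ℕ) : ℕ :=
  ((Finset.range d).filter (fun a => Nat.Coprime a d)).sup (fun a => sInf {n : ℕ | n ∈ R ∧ n % d = a})

/-- its quotient by `φ(d) (log d)²` -/
noncomputable def ratio (R : Set ℕ) (d : ℕ) : ℝ :=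
  (largestLeast R d : ℝ) / ((d.totient : ℝ) * Real.log d ^ 2)

open scoped Classical in
/-- number of the primes `d ≤ x` with `ratio R d ≥ c` -/
noncomputable def large (R : Set ℕ) (c : ℝ) (x : ℕ) : ℕ :=
  ((Icc 1 x).filter fun d => d.Prime ∧ c ≤ ratio R d).card

open scoped Classical in
/-- number of the primes `d ≤ x` with `|ratio R d - 1| ≥ ε` -/
noncomputable def exceptional (R : Set ℕ) (ε : ℝ) (x : ℕ) : ℕ :=
  ((Icc 1 x).filter fun d => d.Prime ∧ ε ≤ |ratio R d - 1|).card

theorem result (T : ℕ → ℕ) (hT : Monotone T)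
    (hsmall : Tendsto (fun k : ℕ => Real.log (T k) / Real.log (Real.log k)) atTop (𝓝 0)) :
    -- the model exists
    (∃ (μ : Measure (ℕ → Bool)) (S : ℕ → Set (ℕ → Bool)), Model T μ S) ∧
    ∀ (Ω : Type) [MeasurableSpace Ω] (μ : Measure Ω) (S : ℕ → Set Ω), Model T μ S →
      ∀ᵐ ω ∂μ,
        -- every class prime to the modulus contains random primes
        (∀ d a : ℕ, 0 < d → Nat.Coprime a d → ∃ n ∈ randomPrimes S ω, n % d = a % d) ∧
        -- the number of the primes `d ≤ x` with `P(d) ≥ c φ(d) (log d)²` is `x^{2 - c + o(1)}`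
        (∀ c : ℝ, 1 < c → c < 2 →
          Tendsto (fun x : ℕ => Real.log (large (randomPrimes S ω) c x) / Real.log x) atTop (𝓝 (2 - c))) ∧
        -- Wagstaff's formula holds for almost all prime moduli
        (∀ ε : ℝ, 0 < ε → ε < 1 →
          ∀ᶠ x : ℕ in atTop, (exceptional (randomPrimes S ω) ε x : ℝ) ≤ (x : ℝ) ^ (1 - ε / 2)) := by
  classical
  have hV : ∀ m : ℕ, ∏ p ∈ (Icc 1 m).filter Nat.Prime, (1 - (p : ℝ)⁻¹)⁻¹ = (Pool.Agent.T2H32.BF.V m)⁻¹ := by
    intro m
    unfold Pool.Agent.T2H32.BF.V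
    rw [prod_inv_distrib]
    congr 1
    refine prod_congr ?_ fun p _ => by rw [one_div]
    ext p
    simp only [mem_filter, mem_Icc, mem_range]
    constructor
    · rintro ⟨h1, h2⟩
      exact ⟨by omega, h2⟩
    · rintro ⟨h1, h2⟩
      exact ⟨⟨h2.one_le, by omega⟩, h2⟩
  have hprob : ∀ n, prob T n = Pool.Agent.T2H53.CG.q T n := by
    intro n
    unfold prob Pool.Agent.T2H53.CG.q
    have h1 : (∀ p : ℕ, p.Prime → p ≤ T n → ¬ p ∣ n) ↔ Pool.Agent.T2H32.GM.Rg (T n) n := by
      unfold Pool.Agent.T2H32.GM.Rg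
      exact ⟨fun h p h2 h3 => h p h3 h2, fun h p h2 h3 => h p h3 h2⟩
    by_cases h : Pool.Agent.T2H32.GM.Rg (T n) n
    · rw [if_pos (h1.2 h), if_pos h, hV]
      congr 1
      rw [one_div, mul_inv, div_eq_mul_inv]
    · rw [if_neg (fun h2 => h (h1.1 h2)), if_neg h]
  have hlog : Tendsto (fun n : ℕ => Real.log (T n) / Real.log n) atTop (𝓝 0) := by
    have h1 : Tendsto (fun n : ℕ => Real.log (Real.log n) / Real.log n) atTop (𝓝 0) := by
      have h2 : Tendsto (fun x : ℝ => Real.log x / x) atTop (𝓝 0) := by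
        have := (isLittleO_log_rpow_atTop (show (0 : ℝ) < 1 by norm_num)).tendsto_div_nhds_zero
        simpa using this
      exact h2.comp Pool.Agent.T2H32.GM.tlog
    have h3 := hsmall.mul h1
    rw [mul_zero] at h3
    refine h3.congr' ?_
    filter_upwards [Pool.Agent.T2H53.CG.llog.eventually_gt_atTop 0] with n hn
    field_simp
  refine ⟨?_, ?_⟩
  · obtain ⟨μ, S, h1, h2, h3, h4⟩ := Pool.Agent.T2H53.GW.exists_model (prob T)
      (fun n => by rw [hprob]; exact Pool.Agent.T2H53.CG.q_nonneg T n)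
      (fun n => by rw [hprob]; exact Pool.Agent.T2H53.CG.q_le_one T n)
    exact ⟨μ, S, h1, h2, h3, h4⟩
  · rintro Ω _ μ S ⟨hμ, hm, hi, hp⟩
    have hp' : ∀ n, μ.real (S n) = Pool.Agent.T2H53.CG.q T n := by
      intro n
      rw [measureReal_def, hp n, hprob, ENNReal.toReal_ofReal (Pool.Agent.T2H53.CG.q_nonneg T n)]
    filter_upwards [Pool.Agent.T2H53.CG.main2 T hT hlog hsmall hm hi hp'] with ω h
    obtain ⟨g1, g2, g3⟩ := h
    refine ⟨?_, ?_, ?_⟩
    · intro d a hd ha
      obtain ⟨n, h1, h2⟩ := g1 d a hd ha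
      exact ⟨n, h2, h1⟩
    · exact g2
    · exact g3

end Pool.Agent.Results.MP_458f0b_nt.ExceptionalModuli
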