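import Pool.Agent.T2H58.SE.Tr2
import Pool.Agent.TH935.HM5

/-!
# The least primes in almost all residue classes, for almost all moduli in Piatetski-Shapiro sequences

Nothing is used besides Mathlib in the statement.
-/

set_option autoImplicit false

namespace Pool.Agent.Results.MP_458f0b_nt.RealPowerModuli

open Finset

open Classical in
/-- The number of the `b` with `0 ≤ b < a` and `gcd(a, b) = 1` for which no prime `p ≤ y` is congruent to `b` modulo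
`a`; for `a ≥ 2` this is the number of the reduced classes with `p(a, b) > y`. -/
noncomputable def late (a : ℕ) (y : ℝ) : ℕ :=
  ((range a).filter (fun b => Nat.Coprime b a ∧ ∀ p : ℕ, p.Prime → (p : ℝ) ≤ y → ¬ p % a = b)).card

/-- `ψ(y; a, b) = ∑_{n ≤ y, n ≡ b mod a} Λ(n)` for `0 ≤ b < a` -/
noncomputable def psiAP (y : ℝ) (a b : ℕ) : ℝ :=
  ∑ n ∈ (Icc 1 ⌊y⌋₊).filter (fun n => n % a = b), ArithmeticFunction.vonMangoldt n

open Classical in
/-- The number of the `b` with `0 ≤ b < a` and `gcd(a, b) = 1` with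
`|ψ(lam φ(a) log a; a, b) - lam log a| ≥ η lam log a`. -/
noncomputable def off (a : ℕ) (lam η : ℝ) : ℕ :=
  ((range a).filter (fun b => Nat.Coprime b a ∧ η * (lam * Real.log a) ≤
    |psiAP (lam * (Nat.totient a * Real.log a)) a b - lam * Real.log a|)).card

/-- For all real `1 ≤ lam ≤ (log a) ^ κ`: the least prime `p(a, b)` is larger than `lam φ(a) log a` for at most
`(1 + ε) φ(a) / lam` of the reduced classes `b`, and for all `η > 0` at most `(1 + ε) φ(a) / (η² lam)` of the reduced classes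
`b` have `|ψ(lam φ(a) log a; a, b) - lam log a| ≥ η lam log a`. -/
def Good (ε : ℝ) (κ a : ℕ) : Prop :=
  ∀ lam : ℝ, 1 ≤ lam → lam ≤ Real.log a ^ κ →
    (late a (lam * (Nat.totient a * Real.log a)) : ℝ) ≤ (1 + ε) * Nat.totient a / lam ∧
    ∀ η : ℝ, 0 < η → (off a lam η : ℝ) ≤ (1 + ε) * Nat.totient a / (lam * η ^ 2)

/-- the function `f(x) = α x^c + ∑ β_i x^(γ_i)` -/
noncomputable def gpow (α c : ℝ) {l : ℕ} (β γ : Fin l → ℝ) (x : ℝ) : ℝ := α * x ^ c + ∑ i, β i * x ^ (γ i)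

theorem gpow_eq (α c : ℝ) {l : ℕ} (β γ : Fin l → ℝ) : gpow α c β γ = Pool.Agent.T2H58.SE.gp α c β γ := rfl

lemma good_iff (ε : ℝ) (κ a : ℕ) : Good ε κ a ↔ Pool.Agent.TH935.HM.Lp ε κ a a := Iff.rfl

lemma good_mono (ε : ℝ) {κ κ' a : ℕ} (h : κ ≤ κ') (ha : 1 ≤ Real.log (a : ℝ)) (hg : Good ε κ' a) : Good ε κ a :=
  fun lam h1 h2 => hg lam h1 (h2.trans (pow_le_pow_right₀ ha h))

open Classical in
theorem first (α : ℝ) (hα : α ≠ 0) (c : ℝ) (hc : 0 < c) (hcn : ∀ n : ℕ, c ≠ n) {l : ℕ} (β γ : Fin l → ℝ)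
    (hγ : ∀ i, γ i < c) (μ : ℤ) (hμ : μ ≠ 0) (A B κ U : ℕ) (ε : ℝ) (hε : 0 < ε) (hε1 : ε ≤ 1) :
    ∃ x₀ : ℕ, ∀ x : ℕ, x₀ ≤ x → ∀ c₀ : ℤ, (|c₀| : ℝ) ≤ B * (x : ℝ) ^ c →
      (((Icc 1 x).filter (fun n : ℕ => (x : ℝ) ^ c ≤ ((c₀ + μ * ⌊gpow α c β γ n⌋ : ℤ) : ℝ) * Real.log x ^ A ∧
        ¬ Good ε κ (c₀ + μ * ⌊gpow α c β γ n⌋).toNat)).card : ℝ) ≤ x / Real.log x ^ U := by
  obtain ⟨h, C, hh, hen⟩ := Pool.Agent.T2H58.SE.fam_energy α hα c hc hcn β γ hγ
  obtain ⟨κ', hκ'⟩ : ∃ κ' : ℕ, κ' = κ + A + 1 := ⟨_, rfl⟩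
  obtain ⟨N₀, hmod⟩ := Pool.Agent.TH935.HM.lp_fam h C κ' (U + 1) ε hε hε1
  obtain ⟨B₁, hB₁, x₂, hx₂, hpar⟩ := Pool.Agent.T2H58.SE.params α c hc β γ hγ μ B A U N₀
  obtain ⟨x₁, _, hen1⟩ := hen (2 * B₁) (by positivity)
  -- the members are large
  have hlarge : ∀ᶠ x : ℕ in Filter.atTop, 3 * Real.log x ^ A ≤ (x : ℝ) ^ c := by
    have h3 : (fun y : ℝ => Real.log y ^ A) =o[Filter.atTop] fun y : ℝ => y ^ c := by
      have := isLittleO_log_rpow_rpow_atTop (s := c) (A : ℝ) hc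
      refine (this.congr' ?_ ?_)
      · filter_upwards with y
        rw [← Real.rpow_natCast]
      · filter_upwards with y; simp
    have h4 := h3.def (show (0 : ℝ) < 1 / 3 by positivity)
    filter_upwards [(tendsto_natCast_atTop_atTop (R := ℝ)).eventually h4, Filter.eventually_ge_atTop 1] with x hx hx1
    have hx1' : (1 : ℝ) ≤ x := by exact_mod_cast hx1
    rw [Real.norm_of_nonneg (pow_nonneg (Real.log_nonneg hx1') _), Real.norm_of_nonneg (by positivity)] at hx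
    linarith
  obtain ⟨x₃, hx₃⟩ := Filter.eventually_atTop.1 hlarge
  refine ⟨max x₁ (max x₂ x₃), fun x hx c₀ hc₀ => ?_⟩
  have hxx1 : x₁ ≤ x := (le_max_left _ _).trans hx
  have hxx2 : x₂ ≤ x := (le_max_left _ _).trans ((le_max_right _ _).trans hx)
  have hxx3 : x₃ ≤ x := (le_max_right _ _).trans ((le_max_right _ _).trans hx)
  obtain ⟨N, hN0, hN3, hN2, hl1, hlA, hlU, hbd⟩ := hpar x hxx2
  have h3x := hx₃ x hxx3
  have hxc0 : 0 ≤ (x : ℝ) ^ c := by positivity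
  have hlx0 : 0 < Real.log x := by linarith
  have hlxA : 1 ≤ Real.log x ^ A := one_le_pow₀ hl1
  have hlN : 1 ≤ Real.log N := by
    by_contra hcon
    push Not at hcon
    have hlN0 : 0 ≤ Real.log (N : ℝ) := Real.log_natCast_nonneg N
    have h1 : Real.log (N : ℝ) ^ (A + 1) < 1 := pow_lt_one₀ hlN0 hcon (by omega)
    nlinarith
  have h1 := hmod N hN0 x (fun m => c₀ + μ * ⌊gpow α c β γ m⌋) (by
    intro m hm
    have h3 := hbd c₀ hc₀ m hm
    rw [gpow_eq]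
    exact h3) (by
    rw [gpow_eq]
    exact hen1 x hxx1 c₀ μ hμ N hN3 hN2)
    ((Icc 1 x).filter (fun n : ℕ => (x : ℝ) ^ c ≤ ((c₀ + μ * ⌊gpow α c β γ n⌋ : ℤ) : ℝ) * Real.log x ^ A ∧
        ¬ Good ε κ (c₀ + μ * ⌊gpow α c β γ n⌋).toNat)) (filter_subset _ _) (by
    intro m hm
    rw [mem_filter] at hm
    obtain ⟨_, h2, h3⟩ := hm
    obtain ⟨Q, hQ⟩ : ∃ Q, Q = c₀ + μ * ⌊gpow α c β γ m⌋ := ⟨_, rfl⟩
    rw [← hQ] at h2 h3 ⊢
    have hQ3 : (3 : ℝ) ≤ Q := by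
      by_contra hcon
      push Not at hcon
      have h5 : (Q : ℝ) * Real.log x ^ A < 3 * Real.log x ^ A := mul_lt_mul_of_pos_right hcon (by positivity)
      linarith
    have hQ0 : 0 < Q := by
      have : (0 : ℝ) < Q := by linarith
      exact_mod_cast this
    have hQr : ((Q.toNat : ℕ) : ℝ) = (Q : ℝ) := by
      have : ((Q.toNat : ℕ) : ℤ) = Q := Int.toNat_of_nonneg hQ0.le
      exact_mod_cast this
    have hQr0 : (0 : ℝ) < Q := by exact_mod_cast hQ0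
    refine ⟨hQ0, ?_, ?_⟩
    · rw [hQr]
      calc (N : ℝ) ≤ 2 * B₁ * (x : ℝ) ^ c := hN2
        _ ≤ 2 * B₁ * (Q * Real.log x ^ A) := by gcongr
        _ = Q * (2 * B₁ * Real.log x ^ A) := by ring
        _ ≤ Q * Real.log N ^ (A + 1) := by gcongr
        _ ≤ Q * Real.log N ^ κ' := by
            apply mul_le_mul_of_nonneg_left _ hQr0.le
            exact pow_le_pow_right₀ hlN (by omega)
    · intro hg
      rw [← good_iff] at hg
      apply h3
      refine good_mono ε (by omega) ?_ hg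
      rw [hQr, Real.le_log_iff_exp_le (by linarith)]
      linarith [Real.exp_one_lt_d9])
  refine h1.trans ?_
  apply div_le_div_of_nonneg_left (Nat.cast_nonneg _) (by positivity) hlU

open Classical in
/-- **Least primes in almost all classes, for almost all moduli in Piatetski-Shapiro sequences.** Let
`f(x) = α x^c + ∑ β_i x^(γ_i)` with real `α ≠ 0`, `c > 0`, `β_i`, `γ_i < c`, where `c` is not an integer (for instance
`f(x) = x^c`, or `x^c` plus an arbitrary real polynomial of degree less than `c`). Let `A`, `B`, `κ`, `U`, the integer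
`μ ≠ 0` and `0 < ε ≤ 1` be fixed.
1. Let `x` be large and let `c₀` be an arbitrary integer with `|c₀| ≤ B x^c`. For all the integers `1 ≤ n ≤ x`, with at
most `x / (log x)^U` exceptions, the modulus `a = c₀ + μ ⌊f(n)⌋` is smaller than `x^c / (log x)^A`, or it has the property
`Good`: for all real `1 ≤ lam ≤ (log a) ^ κ` one has `p(a, b) ≤ lam φ(a) log a` for all reduced classes `b` with at most
`(1 + ε) φ(a) / lam` exceptions (for `lam = C₁ log a`: `p(a, b) ≤ C₁ φ(a) (log a)²` with at most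
`(1 + ε) φ(a) / (C₁ log a)` exceptions), and for all `η > 0` one has
`|ψ(lam φ(a) log a; a, b) - lam log a| < η lam log a` with at most `(1 + ε) φ(a) / (η² lam)` exceptions.
2. If `α > 0` and `x` is large then, for all the integers `1 ≤ n ≤ x` with at most `x / (log x)^U` exceptions, the modulus
`a = ⌊f(n)⌋` is positive and has the property `Good`. -/
theorem result (α : ℝ) (hα : α ≠ 0) (c : ℝ) (hc : 0 < c) (hcn : ∀ n : ℕ, c ≠ n) {l : ℕ} (β γ : Fin l → ℝ)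
    (hγ : ∀ i, γ i < c) (μ : ℤ) (hμ : μ ≠ 0) (A B κ U : ℕ) (ε : ℝ) (hε : 0 < ε) (hε1 : ε ≤ 1) :
    (∃ x₀ : ℕ, ∀ x : ℕ, x₀ ≤ x → ∀ c₀ : ℤ, (|c₀| : ℝ) ≤ B * (x : ℝ) ^ c →
      (((Icc 1 x).filter (fun n : ℕ => (x : ℝ) ^ c ≤ ((c₀ + μ * ⌊gpow α c β γ n⌋ : ℤ) : ℝ) * Real.log x ^ A ∧
        ¬ Good ε κ (c₀ + μ * ⌊gpow α c β γ n⌋).toNat)).card : ℝ) ≤ x / Real.log x ^ U) ∧
    (0 < α → ∃ x₀ : ℕ, ∀ x : ℕ, x₀ ≤ x →
      (((Icc 1 x).filter (fun n : ℕ => ¬ (0 < ⌊gpow α c β γ n⌋ ∧ Good ε κ ⌊gpow α c β γ n⌋.toNat))).card : ℝ) ≤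
        x / Real.log x ^ U) := by
  refine ⟨first α hα c hc hcn β γ hγ μ hμ A B κ U ε hε hε1, fun hα0 => ?_⟩
  obtain ⟨V, x₁, h1⟩ := Pool.Agent.T2H58.SE.most_of_large α c hα0 hc β γ hγ U
  obtain ⟨x₂, h2⟩ := first α hα c hc hcn β γ hγ 1 one_ne_zero V 0 κ (U + 1) ε hε hε1
  refine ⟨max x₁ x₂, fun x hx => ?_⟩
  have h3 := h2 x ((le_max_right _ _).trans hx) 0 (by simp)
  simp only [zero_add, one_mul] at h3
  rw [gpow_eq] at h3 ⊢
  exact h1 x ((le_max_left _ _).trans hx) (fun n : ℕ => Good ε κ ⌊Pool.Agent.T2H58.SE.gp α c β γ n⌋.toNat) h3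

end Pool.Agent.Results.MP_458f0b_nt.RealPowerModuli
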