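import Mathlib
import Pool.Agent.T2H53.GW.Fin
import Pool.Agent.T2H53.GW.Exist

set_option autoImplicit false

/-! # Wagstaff's asymptotic in Granville's sieved random model of the primes

Random primes: every integer `n` without a prime factor `p ≤ A log n` is chosen with probability
`∏_{p ≤ A log n} (1 - 1/p)⁻¹ / log n` (at most `1`), the other integers are not chosen, and the choices are independent
(`A = 1`: Granville's modification of Cramer's model). Let `P(d)` be the largest, over the residue classes modulo `d`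
prime to `d`, of the least random prime in the class. Almost surely the ratio `P(d) / (φ(d) (log d)²)`

* has lower limit at least `2 e^(-γ) > 1` along the prime moduli, and along the moduli with `∑_{p ∣ d} p^(-1/2) ≤ B`;
* is larger than `2 e^(-γ) - ε` for almost all moduli;
* tends to `1` along the primorials;

so that in this model Wagstaff's asymptotic formula fails for almost all moduli, and the ratio has no limit. -/

namespace Pool.Agent.Results.MP_458f0b_nt.SievedModel

open Finset Filter Topology MeasureTheory ProbabilityTheory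

open scoped Classical in
/-- the probability that `n` is a random prime -/
noncomputable def prob (A : ℝ) (n : ℕ) : ℝ :=
  if ∀ p : ℕ, p.Prime → (p : ℝ) ≤ A * Real.log n → ¬ p ∣ n then
    min 1 ((∏ p ∈ (Icc 1 ⌊A * Real.log n⌋₊).filter Nat.Prime, (1 - (p : ℝ)⁻¹)⁻¹) / Real.log n) else 0

/-- the events `S n` (`n` is a random prime) are independent with the probabilities `prob A n` -/
def Model (A : ℝ) {Ω : Type*} [MeasurableSpace Ω] (μ : Measure Ω) (S : ℕ → Set Ω) : Prop :=
  IsProbabilityMeasure μ ∧ (∀ n, MeasurableSet (S n)) ∧ iIndepSet S μ ∧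
    ∀ n, μ (S n) = ENNReal.ofReal (prob A n)

/-- the set of the random primes -/
def randomPrimes {Ω : Type*} (S : ℕ → Set Ω) (ω : Ω) : Set ℕ := {n | ω ∈ S n}

/-- the largest, over the classes modulo `d` prime to `d`, of the least element of `R` in the class -/
noncomputable def largestLeast (R : Set ℕ) (d : ℕ) : ℕ :=
  ((Finset.range d).filter (fun a => Nat.Coprime a d)).sup (fun a => sInf {n : ℕ | n ∈ R ∧ n % d = a})

/-- its quotient by `φ(d) (log d)²` -/
noncomputable def ratio (R : Set ℕ) (d : ℕ) : ℝ :=
  (largestLeast R d : ℝ) / ((d.totient : ℝ) * Real.log d ^ 2)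

theorem result (A : ℝ) (hA : 0 < A) :
    -- the model exists
    (∃ (μ : Measure (ℕ → Bool)) (S : ℕ → Set (ℕ → Bool)), Model A μ S) ∧
    1 < 2 * Real.exp (-Real.eulerMascheroniConstant) ∧
    ∀ (Ω : Type) [MeasurableSpace Ω] (μ : Measure Ω) (S : ℕ → Set Ω), Model A μ S →
      ∀ᵐ ω ∂μ,
        -- every class prime to the modulus contains random primes
        (∀ d a : ℕ, 0 < d → Nat.Coprime a d → ∃ n ∈ randomPrimes S ω, n % d = a % d) ∧
        -- prime moduli
        (∀ ε : ℝ, 0 < ε → ∀ᶠ q : ℕ in atTop, q.Prime →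
          2 * Real.exp (-Real.eulerMascheroniConstant) - ε < ratio (randomPrimes S ω) q) ∧
        -- moduli with few small prime factors
        (∀ ε B : ℝ, 0 < ε → ∀ᶠ d : ℕ in atTop, ∑ p ∈ d.primeFactors, 1 / Real.sqrt p ≤ B →
          2 * Real.exp (-Real.eulerMascheroniConstant) - ε < ratio (randomPrimes S ω) d) ∧
        -- almost all moduli
        (∀ ε : ℝ, 0 < ε → Tendsto (fun x : ℕ => (((Icc 1 x).filter fun d : ℕ =>
          ratio (randomPrimes S ω) d ≤ 2 * Real.exp (-Real.eulerMascheroniConstant) - ε).card : ℝ) / x)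
            atTop (𝓝 0)) ∧
        -- primorials
        Tendsto (fun y : ℕ => ratio (randomPrimes S ω) (primorial y)) atTop (𝓝 1) ∧
        -- Wagstaff's formula fails in the model, the ratio has no limit
        ¬ ∃ l : ℝ, Tendsto (fun d : ℕ => ratio (randomPrimes S ω) d) atTop (𝓝 l) := by
  classical
  have hprob : ∀ n, prob A n = Pool.Agent.T2H53.GW.pr A n := fun n => rfl
  have hGe : 2 * Real.exp (-Real.eulerMascheroniConstant) = 2 / Pool.Agent.T2H53.GW.GG := by
    unfold Pool.Agent.T2H53.GW.GG
    rw [Real.exp_neg, div_eq_mul_inv]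
  have hG1 := Pool.Agent.T2H53.GW.one_lt_GG
  have hone : 1 < 2 * Real.exp (-Real.eulerMascheroniConstant) := by
    rw [hGe, lt_div_iff₀ (by linarith)]
    linarith [Pool.Agent.T2H53.GW.GG_lt_two]
  refine ⟨?_, hone, ?_⟩
  · obtain ⟨μ, S, h1, h2, h3, h4⟩ := Pool.Agent.T2H53.GW.exists_model (prob A)
      (fun n => by rw [hprob]; exact Pool.Agent.T2H53.GW.pr_nonneg A n)
      (fun n => by rw [hprob]; exact Pool.Agent.T2H53.GW.pr_le_one A n)
    exact ⟨μ, S, h1, h2, h3, h4⟩
  · rintro Ω _ μ S ⟨hμ, hm, hi, hp⟩
    have hp' : ∀ n, μ.real (S n) = Pool.Agent.T2H53.GW.pr A n := by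
      intro n
      rw [measureReal_def, hp n, hprob, ENNReal.toReal_ofReal (Pool.Agent.T2H53.GW.pr_nonneg A n)]
    have hrat : ∀ ω d, ratio (randomPrimes S ω) d = Pool.Agent.T2H53.GW.ratio {n | ω ∈ S n} d :=
      fun ω d => rfl
    filter_upwards [Pool.Agent.T2H53.GW.all_classes A hm hi hp', Pool.Agent.T2H53.GW.main_low A hA hm hi hp',
      Pool.Agent.T2H53.GW.main_prim A hA hm hi hp'] with ω g1 g2 g3
    have g2' : ∀ ε B : ℝ, 0 < ε → ∀ᶠ d : ℕ in atTop, ∑ p ∈ d.primeFactors, 1 / Real.sqrt p ≤ B →
          2 * Real.exp (-Real.eulerMascheroniConstant) - ε < ratio (randomPrimes S ω) d := by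
      intro ε B hε
      filter_upwards [g2 ε hε B] with d hd hdB
      rw [hGe, hrat]
      apply hd
      simpa only [one_div] using hdB
    have gp : ∀ ε : ℝ, 0 < ε → ∀ᶠ q : ℕ in atTop, q.Prime →
          2 * Real.exp (-Real.eulerMascheroniConstant) - ε < ratio (randomPrimes S ω) q := by
      intro ε hε
      filter_upwards [g2' ε 1 hε] with q hq hqp
      apply hq
      rw [hqp.primeFactors, sum_singleton]
      have h1 : (1 : ℝ) ≤ Real.sqrt q := by
        rw [show (1 : ℝ) = Real.sqrt 1 by simp]
        exact Real.sqrt_le_sqrt (by exact_mod_cast hqp.one_le)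
      rw [div_le_one (by linarith)]
      exact h1
    refine ⟨?_, gp, g2', ?_, ?_, ?_⟩
    · intro d a hd ha
      obtain ⟨n, h1, h2⟩ := g1 d a hd ha
      exact ⟨n, h2, h1⟩
    · intro ε hε
      have h1 := Pool.Agent.T2H53.GW.density_of (f := fun d => ratio (randomPrimes S ω) d)
        (c := 2 * Real.exp (-Real.eulerMascheroniConstant) - ε)
        (fun B => by
          filter_upwards [g2' ε B hε] with d hd hdB
          apply hd
          simpa only [one_div] using hdB)
      refine h1.congr fun x => ?_
      congr 3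
    · exact g3
    · rintro ⟨l, hl⟩
      have t1 : Tendsto (fun y : ℕ => primorial y) atTop atTop :=
        tendsto_atTop_mono (fun y => le_primorial_self) tendsto_id
      have h1 : l = 1 := tendsto_nhds_unique (hl.comp t1) g3
      set c : ℝ := 2 * Real.exp (-Real.eulerMascheroniConstant) with hc
      have h2 := gp ((c - 1) / 2) (by linarith)
      have h3 := hl.eventually (eventually_lt_nhds (show l < (1 + c) / 2 by rw [h1]; linarith))
      obtain ⟨N, hN⟩ := eventually_atTop.mp (h2.and h3)
      obtain ⟨q, hq1, hq2⟩ := Nat.exists_infinite_primes N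
      obtain ⟨k1, k2⟩ := hN q hq1
      have k3 := k1 hq2
      linarith

end Pool.Agent.Results.MP_458f0b_nt.SievedModel
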