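import Mathlib
import Pool.Agent.T2H53.CG.K
import Pool.Agent.T2H53.GW.Exist

set_option autoImplicit false

/-! # Wagstaff's asymptotic in the sieved random models of the primes: the two limits

Let `T : ℕ → ℕ` be nondecreasing with `log T(n) / log n → 0` (the sieving limits). Random primes: every integer `n`
without a prime factor `p ≤ T(n)` is chosen with probability `∏_{p ≤ T(n)} (1 - 1/p)⁻¹ / log n` (at most `1`), the other
integers are not chosen, and the choices are independent (`T = 0`: Cramer's model; `T(n) = ⌊log n⌋`: Granville's model).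
Let `P(d)` be the largest, over the residue classes modulo `d` prime to `d`, of the least random prime in the class, and
`lower`, `upper` the limits inferior and superior of `P(d) / (φ(d) (log d)²)` along the prime moduli `d`. Almost surely

* `lower ≥ 1`, with equality if and only if `log T(k) ≤ ε log log k` for infinitely many `k`, for every `ε > 0`;
* `upper ≥ 2`, with equality if and only if `log T(k) / log log k → 0`;

so Wagstaff's formula fails in all these models, and the pair `(1, 2)`, conjectured for the primes by Li, Pratt and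
Shakan, occurs exactly in the models with `T(k) = (log k)^{o(1)}`. -/

namespace Pool.Agent.Results.MP_458f0b_nt.SievingLimits

open Finset Filter Topology MeasureTheory ProbabilityTheory

open scoped Classical in
/-- the probability that `n` is a random prime -/
noncomputable def prob (T : ℕ → ℕ) (n : ℕ) : ℝ :=
  if ∀ p : ℕ, p.Prime → p ≤ T n → ¬ p ∣ n then
    min 1 ((∏ p ∈ (Icc 1 (T n)).filter Nat.Prime, (1 - (p : ℝ)⁻¹)⁻¹) / Real.log n) else 0

/-- the events `S n` (`n` is a random prime) are independent with the probabilities `prob T n` -/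
def Model (T : ℕ → ℕ) {Ω : Type*} [MeasurableSpace Ω] (μ : Measure Ω) (S : ℕ → Set Ω) : Prop :=
  IsProbabilityMeasure μ ∧ (∀ n, MeasurableSet (S n)) ∧ iIndepSet S μ ∧
    ∀ n, μ (S n) = ENNReal.ofReal (prob T n)

/-- the set of the random primes -/
def randomPrimes {Ω : Type*} (S : ℕ → Set Ω) (ω : Ω) : Set ℕ := {n | ω ∈ S n}

/-- the largest, over the classes modulo `d` prime to `d`, of the least element of `R` in the class -/
noncomputable def largestLeast (R : Set ℕ) (d : ℕ) : ℕ :=
  ((Finset.range d).filter (fun a => Nat.Coprime a d)).sup (fun a => sInf {n : ℕ | n ∈ R ∧ n % d = a})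

/-- its quotient by `φ(d) (log d)²` -/
noncomputable def ratio (R : Set ℕ) (d : ℕ) : ℝ :=
  (largestLeast R d : ℝ) / ((d.totient : ℝ) * Real.log d ^ 2)

/-- limit inferior of the ratio along the prime moduli -/
noncomputable def lower (R : Set ℕ) : EReal :=
  liminf (fun d => ((ratio R d : ℝ) : EReal)) (atTop ⊓ 𝓟 {d | d.Prime})

/-- limit superior of the ratio along the prime moduli -/
noncomputable def upper (R : Set ℕ) : EReal :=
  limsup (fun d => ((ratio R d : ℝ) : EReal)) (atTop ⊓ 𝓟 {d | d.Prime})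

theorem result (T : ℕ → ℕ) (hT : Monotone T)
    (hsmall : Tendsto (fun n : ℕ => Real.log (T n) / Real.log n) atTop (𝓝 0)) :
    -- the model exists
    (∃ (μ : Measure (ℕ → Bool)) (S : ℕ → Set (ℕ → Bool)), Model T μ S) ∧
    ∀ (Ω : Type) [MeasurableSpace Ω] (μ : Measure Ω) (S : ℕ → Set Ω), Model T μ S →
      ∀ᵐ ω ∂μ,
        -- every class prime to the modulus contains random primes
        (∀ d a : ℕ, 0 < d → Nat.Coprime a d → ∃ n ∈ randomPrimes S ω, n % d = a % d) ∧
        -- the limit inferior
        1 ≤ lower (randomPrimes S ω) ∧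
        (lower (randomPrimes S ω) = 1 ↔
          ∀ ε : ℝ, 0 < ε → ∃ᶠ k : ℕ in atTop, Real.log (T k) ≤ ε * Real.log (Real.log k)) ∧
        -- the limit superior
        2 ≤ upper (randomPrimes S ω) ∧
        (upper (randomPrimes S ω) = 2 ↔
          Tendsto (fun k : ℕ => Real.log (T k) / Real.log (Real.log k)) atTop (𝓝 0)) ∧
        -- Wagstaff's formula fails in the model
        ¬ Tendsto (fun d : ℕ => ratio (randomPrimes S ω) d) atTop (𝓝 1) := by
  classical
  have hV : ∀ m : ℕ, ∏ p ∈ (Icc 1 m).filter Nat.Prime, (1 - (p : ℝ)⁻¹)⁻¹ = (Pool.Agent.T2H32.BF.V m)⁻¹ := by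
    intro m
    unfold Pool.Agent.T2H32.BF.V
    rw [prod_inv_distrib]
    congr 1
    refine prod_congr ?_ fun p _ => by rw [one_div]
    ext p
    simp only [mem_filter, mem_Icc, mem_range]
    constructor
    · rintro ⟨h1, h2⟩
      exact ⟨by omega, h2⟩
    · rintro ⟨h1, h2⟩
      exact ⟨⟨h2.one_le, by omega⟩, h2⟩
  have hprob : ∀ n, prob T n = Pool.Agent.T2H53.CG.q T n := by
    intro n
    unfold prob Pool.Agent.T2H53.CG.q
    have h1 : (∀ p : ℕ, p.Prime → p ≤ T n → ¬ p ∣ n) ↔ Pool.Agent.T2H32.GM.Rg (T n) n := by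
      unfold Pool.Agent.T2H32.GM.Rg
      exact ⟨fun h p h2 h3 => h p h3 h2, fun h p h2 h3 => h p h3 h2⟩
    by_cases h : Pool.Agent.T2H32.GM.Rg (T n) n
    · rw [if_pos (h1.2 h), if_pos h, hV]
      congr 1
      rw [one_div, mul_inv, div_eq_mul_inv]
    · rw [if_neg (fun h2 => h (h1.1 h2)), if_neg h]
  refine ⟨?_, ?_⟩
  · obtain ⟨μ, S, h1, h2, h3, h4⟩ := Pool.Agent.T2H53.GW.exists_model (prob T)
      (fun n => by rw [hprob]; exact Pool.Agent.T2H53.CG.q_nonneg T n)
      (fun n => by rw [hprob]; exact Pool.Agent.T2H53.CG.q_le_one T n)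
    exact ⟨μ, S, h1, h2, h3, h4⟩
  · rintro Ω _ μ S ⟨hμ, hm, hi, hp⟩
    have hp' : ∀ n, μ.real (S n) = Pool.Agent.T2H53.CG.q T n := by
      intro n
      rw [measureReal_def, hp n, hprob, ENNReal.toReal_ofReal (Pool.Agent.T2H53.CG.q_nonneg T n)]
    filter_upwards [Pool.Agent.T2H53.CG.main T hT hsmall hm hi hp'] with ω h
    obtain ⟨g1, g2, g3, g4, g5⟩ := h
    refine ⟨?_, g2, g3, g4, g5, ?_⟩
    · intro d a hd ha
      obtain ⟨n, h1, h2⟩ := g1 d a hd ha
      exact ⟨n, h2, h1⟩
    · intro h
      have h1 : Tendsto (fun d : ℕ => ((ratio (randomPrimes S ω) d : ℝ) : EReal))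
          (atTop ⊓ 𝓟 {d | d.Prime}) (𝓝 ((1 : ℝ) : EReal)) :=
        (continuous_coe_real_ereal.tendsto 1).comp (h.mono_left inf_le_left)
      have hne : (atTop ⊓ 𝓟 {d : ℕ | d.Prime}).NeBot := by
        rw [← frequently_mem_iff_neBot]
        exact Nat.frequently_atTop_iff_infinite.2 Nat.infinite_setOfPred_prime
      have h2 : upper (randomPrimes S ω) = ((1 : ℝ) : EReal) := h1.limsup_eq
      have h3 : (2 : EReal) ≤ upper (randomPrimes S ω) := g4
      rw [h2, ← Pool.Agent.T2H53.CG.coe2] at h3
      have := EReal.coe_le_coe_iff.1 h3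
      norm_num at this

end Pool.Agent.Results.MP_458f0b_nt.SievingLimits
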